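import Pool.Agent.H575.ESB.StmK
import Pool.Graph.R_pool_sql_team_seeded_3997aac3.Q150.ESB.Grp
import Pool.Graph.R_pool_sql_team_seeded_3997aac3.Q121.ESB.EXT0

/-! Project ESB, job GEN (helper914): Kummer theory of elementary abelian 2-extensions. -/

set_option autoImplicit false

namespace Pool.Agent.H914.ESB

open Finset
open Pool.Agent.H575.ESB (MQ Gen S_GEN1 S_GEN2)

/-- the sign -/
def sg (E : Type) [Field E] (z : ZMod 2) : E := if z = 0 then 1 else -1

section

variable (E : Type) [Field E]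

lemma sg_zero : sg E 0 = 1 := if_pos rfl

lemma sg_one : sg E 1 = -1 := if_neg (by decide)

lemma sg_add (a b : ZMod 2) : sg E (a + b) = sg E a * sg E b := by
  have h : ∀ z : ZMod 2, z = 0 ∨ z = 1 := by decide
  rcases h a with rfl | rfl <;> rcases h b with rfl | rfl
  · rw [add_zero, sg_zero, mul_one]
  · rw [zero_add, sg_zero, sg_one, one_mul]
  · rw [add_zero, sg_zero, sg_one, mul_one]
  · have : (1 + 1 : ZMod 2) = 0 := by decide
    rw [this, sg_zero, sg_one]
    ring

lemma sg_sum {ι : Type} (S : Finset ι) (f : ι → ZMod 2) : sg E (∑ j ∈ S, f j) = ∏ j ∈ S, sg E (f j) := by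
  classical
  induction S using Finset.induction_on with
  | empty => rw [Finset.sum_empty, Finset.prod_empty, sg_zero]
  | insert a S ha ih => rw [Finset.sum_insert ha, Finset.prod_insert ha, sg_add, ih]

lemma sg_sq (a : ZMod 2) : sg E a * sg E a = 1 := by
  have h : ∀ z : ZMod 2, z = 0 ∨ z = 1 := by decide
  rcases h a with rfl | rfl
  · rw [sg_zero, mul_one]
  · rw [sg_one]; ring

lemma sg_ne (a : ZMod 2) : sg E a ≠ 0 := by
  intro h
  have := sg_sq E a
  rw [h, mul_zero] at this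
  exact zero_ne_one this

end

section

variable {F E : Type} [Field F] [Field E] [Algebra F E]

lemma map_sg (σ : E ≃ₐ[F] E) (a : ZMod 2) : σ (sg E a) = sg E a := by
  unfold sg
  split_ifs
  · exact map_one σ
  · rw [map_neg, map_one]

lemma eig [FiniteDimensional F E] (χ : (E ≃ₐ[F] E) → ZMod 2)
    (hχ : ∀ g h, χ (g * h) = χ g + χ h) : ∃ s : E, s ≠ 0 ∧ ∀ σ : E ≃ₐ[F] E, σ s = sg E (χ σ) * s := by
  let f : (E ≃ₐ[F] E) → Eˣ := fun σ => Units.mk0 (sg E (χ σ)) (sg_ne E _)
  have hf : groupCohomology.IsMulCocycle₁ f := by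
    intro g h
    apply Units.ext
    show sg E (χ (g * h)) = g (sg E (χ h)) * sg E (χ g)
    rw [hχ, sg_add, map_sg, mul_comm]
  obtain ⟨x, hx⟩ := groupCohomology.isMulCoboundary₁_of_isMulCocycle₁_of_aut_to_units f hf
  refine ⟨x, x.ne_zero, fun σ => ?_⟩
  have h1 := hx σ
  rw [div_eq_iff_eq_mul] at h1
  have h2 := congrArg Units.val h1
  exact h2

lemma prod_eig {m : ℕ} (χ : Fin m → (E ≃ₐ[F] E) → ZMod 2) (s : Fin m → E)
    (hs : ∀ j, ∀ σ : E ≃ₐ[F] E, σ (s j) = sg E (χ j σ) * s j) (S : Finset (Fin m)) (σ : E ≃ₐ[F] E) :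
    σ (∏ j ∈ S, s j) = sg E (∑ j ∈ S, χ j σ) * ∏ j ∈ S, s j := by
  rw [map_prod, sg_sum, ← Finset.prod_mul_distrib]
  exact Finset.prod_congr rfl fun j _ => hs j σ

end

theorem gen1 : S_GEN1 := by
  intro F _ _ m K hK
  have := hK.gal
  have hfin : 0 < Module.finrank F K := by rw [hK.deg]; positivity
  have : FiniteDimensional F K := Module.finite_of_finrank_pos hfin
  have hcard : Nat.card (K ≃ₐ[F] K) = 2 ^ m := by
    rw [IsGalois.card_aut_eq_finrank, hK.deg]
  obtain ⟨e, χ, hχ, hdual, hall⟩ := Pool.Agent.Q150.ESB.dual_basis (K ≃ₐ[F] K) m hcard hK.sq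
  have hex : ∀ j, ∃ s : K, s ≠ 0 ∧ ∀ σ : K ≃ₐ[F] K, σ s = sg K (χ j σ) * s := fun j => eig (χ j) (hχ j)
  choose s hs0 hs using hex
  have hbex : ∀ j, ∃ b : F, algebraMap F K b = s j ^ 2 := by
    intro j
    have : s j ^ 2 ∈ Set.range (algebraMap F K) := by
      rw [IsGalois.mem_range_algebraMap_iff_fixed]
      intro σ
      rw [map_pow, hs j σ, mul_pow, sq, sg_sq, one_mul]
    exact this
  choose b hb using hbex
  have hinj : Function.Injective (algebraMap F K) := (algebraMap F K).injective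
  have h2K : (2 : K) ≠ 0 := two_ne_zero
  have hne : ∀ j, b j ≠ 0 := by
    intro j h
    have h1 := hb j
    rw [h, map_zero] at h1
    exact hs0 j (pow_eq_zero_iff (two_ne_zero) |>.1 h1.symm)
  have hP0 : ∀ S : Finset (Fin m), ∏ j ∈ S, s j ≠ 0 := fun S => Finset.prod_ne_zero_iff.2 fun j _ => hs0 j
  have hPsq : ∀ S : Finset (Fin m), algebraMap F K (∏ j ∈ S, b j) = (∏ j ∈ S, s j) ^ 2 := by
    intro S
    rw [map_prod, ← Finset.prod_pow]
    exact Finset.prod_congr rfl fun j _ => hb j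
  have hind : ∀ S : Finset (Fin m), S.Nonempty → ¬ IsSquare (∏ j ∈ S, b j) := by
    rintro S ⟨j0, hj0⟩ ⟨t, ht⟩
    have h1 : (∏ j ∈ S, s j) ^ 2 = (algebraMap F K t) ^ 2 := by
      rw [← hPsq, ht, map_mul, sq]
    have h3 : (e j0) (∏ j ∈ S, s j) = ∏ j ∈ S, s j := by
      rcases sq_eq_sq_iff_eq_or_eq_neg.1 h1 with h | h
      · rw [h, AlgEquiv.commutes]
      · rw [h, map_neg, AlgEquiv.commutes]
    rw [prod_eig χ s hs S (e j0)] at h3
    have h4 : ∑ j ∈ S, χ j (e j0) = 1 := by
      rw [Finset.sum_eq_single j0]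
      · rw [hdual, if_pos rfl]
      · intro j _ hj
        rw [hdual, if_neg hj]
      · intro h
        exact absurd hj0 h
    rw [h4, sg_one] at h3
    have h5 : 2 * ∏ j ∈ S, s j = 0 := by linear_combination -h3
    rcases mul_eq_zero.1 h5 with h | h
    · exact h2K h
    · exact hP0 S h
  have hsq : ∀ j, ((s j : K) : AlgebraicClosure F) ^ 2 = algebraMap F (AlgebraicClosure F) (b j) := by
    intro j
    have := congrArg (algebraMap K (AlgebraicClosure F)) (hb j)
    rw [← IsScalarTower.algebraMap_apply, map_pow] at this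
    exact this.symm
  have hmain := (Pool.Agent.Q121.ESB.main (fun j => ((s j : K) : AlgebraicClosure F)) hsq hne hind Finset.univ).1
  have hle1 : Pool.Agent.Q121.ESB.KU (F := F) (fun j => ((s j : K) : AlgebraicClosure F)) ≤
      IntermediateField.adjoin F {s | ∃ j, s ^ 2 = algebraMap F (AlgebraicClosure F) (b j)} := by
    refine IntermediateField.adjoin.mono F _ _ ?_
    rintro _ ⟨j, _, rfl⟩
    exact ⟨j, hsq j⟩
  have hle2 : IntermediateField.adjoin F {s | ∃ j, s ^ 2 = algebraMap F (AlgebraicClosure F) (b j)} ≤ K := by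
    rw [IntermediateField.adjoin_le_iff]
    rintro x ⟨j, hx⟩
    rw [← hsq j] at hx
    rcases sq_eq_sq_iff_eq_or_eq_neg.1 hx with h | h
    · rw [h]; exact (s j).2
    · rw [h]; exact K.neg_mem (s j).2
  have heq : Pool.Agent.Q121.ESB.KU (F := F) (fun j => ((s j : K) : AlgebraicClosure F)) = K := by
    apply IntermediateField.eq_of_le_of_finrank_eq (hle1.trans hle2)
    rw [hK.deg]
    refine hmain.trans ?_
    rw [Finset.card_univ, Fintype.card_fin]
  refine ⟨b, hne, hind, fun j => ⟨s j, (s j).2, hsq j⟩, ?_, le_antisymm (heq ▸ hle1) hle2⟩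
  intro y hy c hc
  by_cases hy0 : y = 0
  · refine ⟨∅, 0, ?_⟩
    have : algebraMap F (AlgebraicClosure F) c = 0 := by rw [← hc, hy0]; ring
    rw [(map_eq_zero _).1 this]
    ring
  obtain ⟨x, rfl⟩ : ∃ x : K, (x : AlgebraicClosure F) = y := ⟨⟨y, hy⟩, rfl⟩
  have hx0 : x ≠ 0 := fun h => hy0 (by rw [h]; rfl)
  have hx2 : x ^ 2 = algebraMap F K c := by
    apply Subtype.ext
    exact hc
  have hsign : ∀ σ : K ≃ₐ[F] K, σ x = x ∨ σ x = -x := by
    intro σ
    apply sq_eq_sq_iff_eq_or_eq_neg.1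
    rw [← map_pow, hx2, AlgEquiv.commutes]
  classical
  let f : (K ≃ₐ[F] K) → ZMod 2 := fun σ => if σ x = x then 0 else 1
  have hf1 : ∀ σ, σ x = sg K (f σ) * x := by
    intro σ
    by_cases h : σ x = x
    · have : f σ = 0 := if_pos h
      rw [this, sg_zero, one_mul, h]
    · have : f σ = 1 := if_neg h
      rw [this, sg_one, neg_one_mul]
      exact (hsign σ).resolve_left h
  have hnegx : -x ≠ x := by
    intro h
    have : 2 * x = 0 := by linear_combination -h
    rcases mul_eq_zero.1 this with h | h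
    · exact h2K h
    · exact hx0 h
  have hsginj : ∀ a c : ZMod 2, sg K a * x = sg K c * x → a = c := by
    have hz : ∀ z : ZMod 2, z = 0 ∨ z = 1 := by decide
    intro a c h
    rcases hz a with rfl | rfl <;> rcases hz c with rfl | rfl
    · rfl
    · rw [sg_zero, sg_one, one_mul, neg_one_mul] at h
      exact absurd h.symm hnegx
    · rw [sg_zero, sg_one, one_mul, neg_one_mul] at h
      exact absurd h hnegx
    · rfl
  have hf2 : ∀ g h, f (g * h) = f g + f h := by
    intro g h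
    apply hsginj
    rw [← hf1, sg_add]
    show g (h x) = _
    rw [hf1 h, map_mul, map_sg, hf1 g]
    ring
  have hf3 := hall f hf2
  let S : Finset (Fin m) := Finset.univ.filter fun j => f (e j) = 1
  have hf4 : ∀ g, f g = ∑ j ∈ S, χ j g := by
    intro g
    rw [hf3 g, Finset.sum_filter]
    refine Finset.sum_congr rfl fun j _ => ?_
    have hz : ∀ z : ZMod 2, z = 0 ∨ z = 1 := by decide
    split_ifs with h
    · rw [h, one_mul]
    · rw [(hz (f (e j))).resolve_right h, zero_mul]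
  have hfix : x * (∏ j ∈ S, s j)⁻¹ ∈ Set.range (algebraMap F K) := by
    rw [IsGalois.mem_range_algebraMap_iff_fixed]
    intro σ
    rw [map_mul, map_inv₀, prod_eig χ s hs S σ, hf1 σ, ← hf4 σ, mul_inv]
    have h1 := sg_ne K (f σ)
    field_simp
  obtain ⟨t, ht⟩ := hfix
  refine ⟨S, t, hinj ?_⟩
  rw [map_mul, map_pow, hPsq, ht, ← hx2]
  have := hP0 S
  field_simp

theorem gen2 : S_GEN2 := by
  intro F _ _ m b hne hind
  have hex : ∀ j, ∃ r : AlgebraicClosure F, r ^ 2 = algebraMap F (AlgebraicClosure F) (b j) := fun j =>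
    IsAlgClosed.exists_pow_nat_eq _ (by norm_num)
  choose r hr using hex
  have hmain := Pool.Agent.Q121.ESB.main r hr hne hind Finset.univ
  have := Pool.Agent.Q121.ESB.normal r hr
  refine ⟨Pool.Agent.Q121.ESB.KU (F := F) r, ⟨?_, Pool.Agent.Q121.ESB.two r hr, ?_⟩,
    hne, hind, ?_, ?_, ?_⟩
  · constructor
  · rw [hmain.1, Finset.card_univ, Fintype.card_fin]
  · intro j
    exact ⟨r j, Pool.Agent.Q121.ESB.mem_KT r (Finset.mem_univ j), hr j⟩
  · intro s hs c hc
    obtain ⟨S, _, t, ht⟩ := hmain.2 s hs c hc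
    exact ⟨S, t, ht⟩
  · apply le_antisymm
    · refine IntermediateField.adjoin.mono F _ _ ?_
      rintro _ ⟨j, _, rfl⟩
      exact ⟨j, hr j⟩
    · rw [IntermediateField.adjoin_le_iff]
      rintro x ⟨j, hx⟩
      rw [← hr j] at hx
      have hm := Pool.Agent.Q121.ESB.mem_KT (F := F) r (Finset.mem_univ j)
      rcases sq_eq_sq_iff_eq_or_eq_neg.1 hx with h | h
      · rw [h]; exact hm
      · rw [h]; exact IntermediateField.neg_mem _ hm

end Pool.Agent.H914.ESB
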